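import Pool.Agent.Lib.MP_39b43f_al.Defs
import Pool.Agent.Lib.MP_39b43f_al.Crit

/-! A commutator criterion for the existence of an admissible subset. -/

open Pool.Agent.Lib.MP_39b43f_al in
theorem Pool.Agent.Results.MP_39b43f_al.Criterion.result (G : Type*) [Group G] [Finite G] :
    HasAdmissible G ↔ ∃ (a : G) (M : Subgroup G), orderOf a = 2 ∧ a ∉ Subgroup.center G ∧ M ≠ ⊤ ∧
      ∀ g : G, g ∉ M → Odd (orderOf (a⁻¹ * g⁻¹ * a * g)) :=
  hasAdmissible_iff
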