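import Pool.Agent.Lib.MP_39b43f_al.Defs
import Pool.Agent.Lib.MP_39b43f_al.Quot

/-! Reduction modulo a normal subgroup of odd order. -/

open Pool.Agent.Lib.MP_39b43f_al in
theorem Pool.Agent.Results.MP_39b43f_al.OddCore.result (G : Type*) [Group G] [Finite G]
    (N : Subgroup G) [N.Normal] (hN : Odd (Nat.card N)) :
    HasAdmissible G ↔ HasAdmissible (G ⧸ N) ∨
      ∃ a : G, orderOf a = 2 ∧ a ∉ Subgroup.center G ∧
        (a : G ⧸ N) ∈ Subgroup.center (G ⧸ N) :=
  odd_normal N hN
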