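import Pool.Agent.Lib.MP_39b43f_al.Defs2
import Pool.Agent.Lib.MP_39b43f_al.Red7

/-! Reduction of the existence of admissible subsets to almost simple groups; the complete answer
for solvable groups. -/

open Pool.Agent.Lib.MP_39b43f_al in
theorem Pool.Agent.Results.MP_39b43f_al.Reduction.result (G : Type*) [Group G] [Finite G] :
    (HasAdmissible G ↔ InvertedSection G ∨ LiftedPair G) ∧
      (Group.IsSolvable G → (HasAdmissible G ↔ InvertedSection G)) :=
  ⟨reduction, fun _ => solvable_iff⟩
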