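import Pool.Agent.Lib.MP_39b43f_al.Defs
import Pool.Agent.Lib.MP_39b43f_al.Quot

/-! The complete answer for finite groups of 2-length at most one. -/

open Pool.Agent.Lib.MP_39b43f_al in
theorem Pool.Agent.Results.MP_39b43f_al.TwoLengthOne.result (G : Type*) [Group G] [Finite G]
    (N : Subgroup G) [N.Normal] (hN : Odd (Nat.card N))
    (Q : Subgroup (G ⧸ N)) [Q.Normal] (hQ : IsPGroup 2 Q) (hodd : Odd Q.index) :
    HasAdmissible G ↔ ∃ a : G, orderOf a = 2 ∧ a ∉ Subgroup.center G ∧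
        (a : G ⧸ N) ∈ Subgroup.center (G ⧸ N) :=
  two_length_one N hN Q hQ hodd
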